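import Pool.Agent.L7h68.SF.Stm

set_option autoImplicit false

/-!
# Project SF, part FU: the finite unions theorem, from Mathlib's Hindman theorem for semigroups
-/

namespace Pool.Agent.L7h68.SF

open Finset

/-- Finite sets of natural numbers with one more element: the partial union of sets which follow each
other, as a semigroup. -/
structure QQ where
  o : Option (Finset ℕ)

/-- The product: the union, if all elements of the first set are smaller than those of the second. -/
noncomputable def qmul : QQ → QQ → QQ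
  | ⟨some F⟩, ⟨some G⟩ => by
      classical
      exact if ∀ a ∈ F, ∀ b ∈ G, a < b then ⟨some (F ∪ G)⟩ else ⟨none⟩
  | ⟨none⟩, _ => ⟨none⟩
  | ⟨some _⟩, ⟨none⟩ => ⟨none⟩

theorem qmul_some (F G : Finset ℕ) (h : ∀ a ∈ F, ∀ b ∈ G, a < b) :
    qmul ⟨some F⟩ ⟨some G⟩ = ⟨some (F ∪ G)⟩ := by
  unfold qmul
  simp only
  rw [if_pos h]

theorem qmul_none (F G : Finset ℕ) (h : ¬ ∀ a ∈ F, ∀ b ∈ G, a < b) :
    qmul ⟨some F⟩ ⟨some G⟩ = ⟨none⟩ := by
  unfold qmul
  simp only
  rw [if_neg h]

theorem qmul_none_left (x : QQ) : qmul ⟨none⟩ x = ⟨none⟩ := rfl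

theorem qmul_none_right (x : QQ) : qmul x ⟨none⟩ = ⟨none⟩ := by
  rcases x with ⟨_ | F⟩ <;> rfl

theorem qmul_assoc (x y z : QQ) : qmul (qmul x y) z = qmul x (qmul y z) := by
  rcases x with ⟨_ | F⟩
  · rfl
  rcases y with ⟨_ | G⟩
  · rfl
  rcases z with ⟨_ | H⟩
  · rw [qmul_none_right, qmul_none_right, qmul_none_right]
  by_cases h1 : ∀ a ∈ F, ∀ b ∈ G, a < b
  · rw [qmul_some F G h1]
    by_cases h2 : ∀ a ∈ G, ∀ b ∈ H, a < b
    · rw [qmul_some G H h2]
      by_cases h3 : ∀ a ∈ F, ∀ b ∈ H, a < b
      · rw [qmul_some, qmul_some, Finset.union_assoc]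
        · intro a ha b hb
          rcases Finset.mem_union.1 hb with h | h
          · exact h1 a ha b h
          · exact h3 a ha b h
        · intro a ha b hb
          rcases Finset.mem_union.1 ha with h | h
          · exact h3 a h b hb
          · exact h2 a h b hb
      · rw [qmul_none, qmul_none]
        · intro h
          exact h3 fun a ha b hb => h a ha b (Finset.mem_union_right _ hb)
        · intro h
          exact h3 fun a ha b hb => h a (Finset.mem_union_left _ ha) b hb
    · rw [qmul_none G H h2, qmul_none_right, qmul_none]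
      intro h
      exact h2 fun a ha b hb => h a (Finset.mem_union_right _ ha) b hb
  · rw [qmul_none F G h1, qmul_none_left]
    by_cases h2 : ∀ a ∈ G, ∀ b ∈ H, a < b
    · rw [qmul_some G H h2, qmul_none]
      intro h
      exact h1 fun a ha b hb => h a ha b (Finset.mem_union_left _ hb)
    · rw [qmul_none G H h2, qmul_none_right]

noncomputable instance : Semigroup QQ where
  mul := qmul
  mul_assoc := qmul_assoc

theorem mul_def (x y : QQ) : x * y = qmul x y := rfl

/-- The stream of the singletons. -/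
def sing (n : ℕ) : Stream' QQ := fun i => ⟨some {i + n}⟩

theorem FP_sing (a : Stream' QQ) (m : QQ) (h : m ∈ Hindman.FP a) :
    ∀ n, a = sing n → ∃ F : Finset ℕ, m = ⟨some F⟩ ∧ F.Nonempty ∧ ∀ x ∈ F, n ≤ x := by
  induction h with
  | head' a =>
    rintro n rfl
    exact ⟨{0 + n}, rfl, Finset.singleton_nonempty _, fun x hx => by
      rw [Finset.mem_singleton] at hx
      omega⟩
  | tail' a m _ ih =>
    rintro n rfl
    obtain ⟨F, h1, h2, h3⟩ := ih (n + 1) (by
      funext i
      show (⟨some {i + 1 + n}⟩ : QQ) = ⟨some {i + (n + 1)}⟩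
      rw [show i + 1 + n = i + (n + 1) by omega])
    exact ⟨F, h1, h2, fun x hx => by
      have := h3 x hx
      omega⟩
  | cons' a m _ ih =>
    rintro n rfl
    obtain ⟨F, h1, h2, h3⟩ := ih (n + 1) (by
      funext i
      show (⟨some {i + 1 + n}⟩ : QQ) = ⟨some {i + (n + 1)}⟩
      rw [show i + 1 + n = i + (n + 1) by omega])
    refine ⟨{0 + n} ∪ F, ?_, ⟨0 + n, by simp⟩, ?_⟩
    · rw [h1, mul_def]
      refine qmul_some {0 + n} F ?_
      intro a ha b hb
      rw [Finset.mem_singleton] at ha
      have := h3 b hb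
      omega
    · intro x hx
      rcases Finset.mem_union.1 hx with h | h
      · rw [Finset.mem_singleton] at h
        omega
      · have := h3 x h
        omega

theorem s_FU : S_FU := by
  classical
  intro κ _ c
  let C : κ → Set QQ := fun k => {m | ∃ F : Finset ℕ, m = ⟨some F⟩ ∧ F.Nonempty ∧ c F = k}
  obtain ⟨D, hD, b, hb⟩ := Hindman.FP_partition_regular (sing 0) (Set.range C)
    (Set.finite_range C) (by
      intro m hm
      obtain ⟨F, h1, h2, _⟩ := FP_sing _ m hm 0 rfl
      exact ⟨C (c F), ⟨c F, rfl⟩, F, h1, h2, rfl⟩)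
  obtain ⟨k, rfl⟩ := hD
  have hs : ∀ i, ∃ F : Finset ℕ, b.get i = ⟨some F⟩ ∧ F.Nonempty ∧ c F = k := fun i =>
    hb (Hindman.FP.singleton b i)
  choose F hF1 hF2 hF3 using hs
  have hlt : ∀ i j, i < j → ∀ a ∈ F i, ∀ b ∈ F j, a < b := by
    intro i j hij
    by_contra h
    obtain ⟨G, h1, _, _⟩ := hb (Hindman.FP.mul_two b i j hij)
    rw [hF1, hF1, mul_def, qmul_none _ _ h] at h1
    exact absurd (congrArg QQ.o h1) (by simp)
  have key : ∀ (N : ℕ) (I : Finset ℕ), I.card ≤ N → I.Nonempty → ∀ n, (∀ i ∈ I, n ≤ i) →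
      (⟨some (I.biUnion F)⟩ : QQ) ∈ Hindman.FP (b.drop n) := by
    intro N
    induction N with
    | zero =>
      intro I hI hI'
      exact absurd hI'.card_pos (by omega)
    | succ N ih =>
      intro I hI hI' n hn
      let i₀ := I.min' hI'
      have hi₀ : i₀ ∈ I := Finset.min'_mem I hI'
      have hsub : Hindman.FP (b.drop i₀) ⊆ Hindman.FP (b.drop n) := by
        have h1 := Hindman.FP_drop_subset_FP (b.drop n) (i₀ - n)
        rw [Stream'.drop_drop, Nat.add_sub_cancel' (hn i₀ hi₀)] at h1
        exact h1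
      refine hsub ?_
      have hI0 : I = insert i₀ (I.erase i₀) := (Finset.insert_erase hi₀).symm
      have hhead : (b.drop i₀).head = ⟨some (F i₀)⟩ := by
        rw [Stream'.head_drop, hF1]
      rcases (I.erase i₀).eq_empty_or_nonempty with h | h
      · rw [hI0, h]
        have h1 : (insert i₀ (∅ : Finset ℕ)).biUnion F = F i₀ := by simp
        rw [h1, ← hhead]
        exact Hindman.FP.head _
      · have h1 := ih (I.erase i₀) (by
          rw [Finset.card_erase_of_mem hi₀]
          omega) h (i₀ + 1) (by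
          intro i hi
          rw [Finset.mem_erase] at hi
          have := Finset.min'_le I i hi.2
          have h2 : i₀ ≤ i := this
          have h3 : i ≠ i₀ := hi.1
          omega)
        rw [← Stream'.tail_drop'] at h1
        have h2 := Hindman.FP.cons _ _ h1
        rw [hhead, mul_def, qmul_some] at h2
        · rw [hI0, Finset.biUnion_insert]
          exact h2
        · intro a ha b' hb'
          rw [Finset.mem_biUnion] at hb'
          obtain ⟨i, hi, hb'⟩ := hb'
          rw [Finset.mem_erase] at hi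
          have h3 : i₀ ≤ i := Finset.min'_le I i hi.2
          exact hlt i₀ i (lt_of_le_of_ne h3 (Ne.symm hi.1)) a ha b' hb'
  refine ⟨F, k, hF2, hlt, ?_⟩
  intro I hI
  obtain ⟨G, h1, _, h2⟩ := hb (key I.card I le_rfl hI 0 fun i _ => Nat.zero_le i)
  have h3 : I.biUnion F = G := Option.some.inj (congrArg QQ.o h1)
  rw [h3]
  exact h2

end Pool.Agent.L7h68.SF
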