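import Pool.Agent.L7h68.SF.Stm

set_option autoImplicit false

/-!
# Project SF, part FUF: the finite form of the finite unions theorem
-/

namespace Pool.Agent.L7h68.SF

open Finset Filter

theorem uf_const {t : ℕ} (U : Ultrafilter ℕ) (f : ℕ → Fin t) : ∃ k, ∀ᶠ N in U, f N = k := by
  obtain ⟨k, hk⟩ := Ultrafilter.eq_pure_of_finite (U.map f)
  refine ⟨k, ?_⟩
  have h1 : ({k} : Set (Fin t)) ∈ U.map f := by
    rw [hk]
    exact Ultrafilter.mem_pure.2 rfl
  exact h1

/-- The part of a finite set below `N`. -/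
def cut (N : ℕ) (G : Finset ℕ) : Finset (Fin N) := Finset.univ.filter fun j => j.1 ∈ G

theorem s_FUF (hFU : S_FU) : S_FUF := by
  classical
  intro m t
  by_contra hcon
  push Not at hcon
  choose c hc using hcon
  let U : Ultrafilter ℕ := Filter.hyperfilter ℕ
  choose d hd using fun G : Finset ℕ => uf_const U (fun N => c N (cut N G))
  obtain ⟨F, k, hF1, hF2, hF3⟩ := hFU (Fin t) d
  have h1 : ∀ᶠ N in (U : Filter ℕ), ((range m).biUnion F).sup id < N := by
    have h2 : (U : Filter ℕ) ≤ atTop := by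
      refine Filter.hyperfilter_le_cofinite.trans ?_
      rw [Nat.cofinite_eq_atTop]
    exact (Filter.eventually_gt_atTop _).filter_mono h2
  have h2 : ∀ᶠ N in (U : Filter ℕ), ∀ S : Finset (Fin m),
      c N (cut N ((S.image Fin.val).biUnion F)) = d ((S.image Fin.val).biUnion F) :=
    Filter.eventually_all.2 fun S => hd _
  obtain ⟨N, hN1, hN2⟩ := (h1.and h2).exists
  have hmem : ∀ (i : Fin m) (p : ℕ), p ∈ F i.1 → p < N := by
    intro i p hp
    refine lt_of_le_of_lt ?_ hN1
    exact Finset.le_sup (f := id) (Finset.mem_biUnion.2 ⟨i.1, Finset.mem_range.2 i.2, hp⟩)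
  obtain ⟨S, hS1, hS2⟩ := hc N (fun i => cut N (F i.1)) k (by
    intro i
    obtain ⟨p, hp⟩ := hF1 i.1
    exact ⟨⟨p, hmem i p hp⟩, by simp [cut, hp]⟩) (by
    intro i j hij
    rw [Finset.disjoint_left]
    intro p hp hp'
    simp only [cut, Finset.mem_filter, Finset.mem_univ, true_and] at hp hp'
    rcases lt_or_gt_of_ne (fun h => hij (Fin.ext h) : i.1 ≠ j.1) with h | h
    · exact absurd (hF2 _ _ h _ hp _ hp') (lt_irrefl _)
    · exact absurd (hF2 _ _ h _ hp' _ hp) (lt_irrefl _))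
  apply hS2
  have h3 : (S.biUnion fun i => cut N (F i.1)) = cut N ((S.image Fin.val).biUnion F) := by
    ext p
    simp only [cut, Finset.mem_filter, Finset.mem_univ, true_and, Finset.mem_biUnion,
      Finset.mem_image]
    constructor
    · rintro ⟨i, hi, hp⟩
      exact ⟨i.1, ⟨i, hi, rfl⟩, hp⟩
    · rintro ⟨_, ⟨i, hi, rfl⟩, hp⟩
      exact ⟨i, hi, hp⟩
  rw [h3, hN2 S]
  exact hF3 _ (hS1.image _)

end Pool.Agent.L7h68.SF
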