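import Pool.Agent.L7h68.SF.Stm

set_option autoImplicit false

/-!
# Project SF, part INF
-/

namespace Pool.Agent.L7h68.SF

open Finset

/-- The value of a finitely supported sequence of digits for the weights `a`. -/
noncomputable def val (a : ℕ → ℤ) : (ℕ →₀ ℤ) →+ ℤ :=
  Finsupp.liftAddHom fun q => AddMonoidHom.mulRight (a q)

theorem val_eq (a : ℕ → ℤ) (u : ℕ →₀ ℤ) (s : Finset ℕ) (h : u.support ⊆ s) :
    val a u = ∑ q ∈ s, u q * a q := by
  have h1 : val a u = u.sum fun q v => v * a q := rfl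
  rw [h1]
  exact Finsupp.sum_of_support_subset u h _ (fun q _ => by simp)

theorem seq_exists (β : ℕ → ℤ) (hβ : ∀ q, 0 ≤ β q) :
    ∃ a : ℕ → ℤ, (∀ q, 0 < a q) ∧ ∀ q, ∑ p ∈ range q, β p * a p < a q := by
  let s : ℕ → ℤ := fun q => Nat.rec 0 (fun q v => v + β q * (1 + v)) q
  have hs0 : s 0 = 0 := rfl
  have hs : ∀ q, s (q + 1) = s q + β q * (1 + s q) := fun q => rfl
  have hn : ∀ q, 0 ≤ s q := by
    intro q
    induction q with
    | zero => simp [hs0]
    | succ q ih =>
      rw [hs]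
      have := hβ q
      positivity
  have hsum : ∀ q, ∑ p ∈ range q, β p * (1 + s p) = s q := by
    intro q
    induction q with
    | zero => simp [hs0]
    | succ q ih => rw [Finset.sum_range_succ, ih, hs]
  refine ⟨fun q => 1 + s q, fun q => ?_, fun q => ?_⟩
  · have := hn q
    show 0 < 1 + s q
    omega
  · rw [hsum]
    show s q < 1 + s q
    omega

theorem val_pos (a β : ℕ → ℤ) (ha : ∀ q, 0 < a q) (hs : ∀ q, ∑ p ∈ range q, β p * a p < a q)
    (u : ℕ →₀ ℤ) (hu : ∀ q, |u q| ≤ β q) (q₀ : ℕ) (h0 : 0 < u q₀) (h1 : ∀ q, q₀ < q → u q = 0) :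
    0 < val a u := by
  have hsub : u.support ⊆ range (q₀ + 1) := by
    intro q hq
    rw [Finsupp.mem_support_iff] at hq
    rw [mem_range]
    by_contra h
    exact hq (h1 q (by omega))
  rw [val_eq a u _ hsub, Finset.sum_range_succ]
  have h2 : -∑ p ∈ range q₀, β p * a p ≤ ∑ q ∈ range q₀, u q * a q := by
    rw [← Finset.sum_neg_distrib]
    refine Finset.sum_le_sum fun q _ => ?_
    have h3 := (abs_le.1 (hu q)).1
    have h4 := ha q
    nlinarith
  have h5 := hs q₀
  have h6 : a q₀ ≤ u q₀ * a q₀ := by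
    have := ha q₀
    nlinarith
  omega

theorem val_zero (a β : ℕ → ℤ) (ha : ∀ q, 0 < a q) (hs : ∀ q, ∑ p ∈ range q, β p * a p < a q)
    (u : ℕ →₀ ℤ) (hu : ∀ q, |u q| ≤ β q) (h : val a u = 0) : u = 0 := by
  by_contra hne
  have hsn : u.support.Nonempty := Finsupp.support_nonempty_iff.2 hne
  let q₀ := u.support.max' hsn
  have hq₀ : u q₀ ≠ 0 := Finsupp.mem_support_iff.1 (Finset.max'_mem _ hsn)
  have hbig : ∀ q, q₀ < q → u q = 0 := by
    intro q hq
    by_contra h'
    have := Finset.le_max' u.support q (Finsupp.mem_support_iff.2 h')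
    exact absurd hq (not_lt.2 this)
  rcases lt_or_gt_of_ne hq₀ with h1 | h1
  · have h2 : 0 < val a (-u) := by
      refine val_pos a β ha hs (-u) ?_ q₀ ?_ ?_
      · intro q
        rw [Finsupp.neg_apply, abs_neg]
        exact hu q
      · rw [Finsupp.neg_apply]
        omega
      · intro q hq
        rw [Finsupp.neg_apply, hbig q hq, neg_zero]
    rw [map_neg, h] at h2
    omega
  · have h2 := val_pos a β ha hs u hu q₀ h1 hbig
    omega

/-- The digit sequences of the elements of the sequence. -/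
noncomputable def el (τ : ℕ) (z : ℤ) (F : Finset ℕ) : ℕ →₀ ℤ :=
  Finsupp.single (2 * τ) z + ∑ j ∈ F, Finsupp.single (2 * Nat.pair τ j + 1) 1

theorem el_even (τ : ℕ) (z : ℤ) (F : Finset ℕ) (σ : ℕ) :
    el τ z F (2 * σ) = if σ = τ then z else 0 := by
  unfold el
  rw [Finsupp.add_apply, Finsupp.finset_sum_apply]
  have h1 : ∑ j ∈ F, (Finsupp.single (2 * Nat.pair τ j + 1) (1 : ℤ)) (2 * σ) = 0 := by
    refine Finset.sum_eq_zero fun j _ => ?_
    rw [Finsupp.single_apply, if_neg]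
    omega
  rw [h1, add_zero, Finsupp.single_apply]
  by_cases h : σ = τ
  · rw [if_pos (by omega), if_pos h]
  · rw [if_neg (by omega), if_neg h]

theorem el_odd (τ : ℕ) (z : ℤ) (F : Finset ℕ) (p : ℕ) :
    el τ z F (2 * p + 1) = if ∃ j ∈ F, Nat.pair τ j = p then 1 else 0 := by
  classical
  unfold el
  rw [Finsupp.add_apply, Finsupp.finset_sum_apply]
  rw [Finsupp.single_apply, if_neg (by omega), zero_add]
  by_cases h : ∃ j ∈ F, Nat.pair τ j = p
  · rw [if_pos h]
    obtain ⟨j, hj, hp⟩ := h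
    rw [Finset.sum_eq_single j]
    · rw [Finsupp.single_apply, if_pos (by omega)]
    · intro k _ hk
      rw [Finsupp.single_apply, if_neg]
      intro h'
      have : Nat.pair τ k = Nat.pair τ j := by omega
      exact hk (Nat.pair_eq_pair.1 this).2
    · intro h'
      exact absurd hj h'
  · rw [if_neg h]
    refine Finset.sum_eq_zero fun j hj => ?_
    rw [Finsupp.single_apply, if_neg]
    intro h'
    exact h ⟨j, hj, by omega⟩

theorem el_add {ι : Type} [DecidableEq ι] (τ : ℕ) (s : Finset ι) (z : ι → ℤ) (F : ι → Finset ℕ)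
    (hd : ∀ i ∈ s, ∀ j ∈ s, i ≠ j → Disjoint (F i) (F j)) :
    ∑ i ∈ s, el τ (z i) (F i) = el τ (∑ i ∈ s, z i) (s.biUnion F) := by
  unfold el
  rw [Finset.sum_add_distrib]
  congr 1
  · rw [← Finsupp.single_finset_sum]
  · rw [Finset.sum_biUnion]
    intro i hi j hj hij
    exact hd i hi j hj hij

/-- The bounds for the digits. -/
def gam (Z : ℕ → Finset ℤ) (q : ℕ) : ℤ := if q % 2 = 0 then ∑ z ∈ Z (q / 2), |z| else 1

theorem gam_nonneg (Z : ℕ → Finset ℤ) (q : ℕ) : 0 ≤ gam Z q := by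
  unfold gam
  split_ifs
  · exact Finset.sum_nonneg fun z _ => abs_nonneg z
  · omega

theorem el_le (Z : ℕ → Finset ℤ) (τ : ℕ) (z : ℤ) (hz : z ∈ Z τ) (F : Finset ℕ) (q : ℕ) :
    |el τ z F q| ≤ gam Z q := by
  rcases Nat.even_or_odd' q with ⟨p, rfl | rfl⟩
  · rw [el_even]
    have h1 : gam Z (2 * p) = ∑ z ∈ Z p, |z| := by
      unfold gam
      rw [if_pos (by omega), show 2 * p / 2 = p by omega]
    rw [h1]
    by_cases h : p = τ
    · rw [if_pos h, h]
      exact Finset.single_le_sum (f := fun z : ℤ => |z|) (fun z _ => abs_nonneg z) hz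
    · rw [if_neg h, abs_zero]
      exact Finset.sum_nonneg fun z _ => abs_nonneg z
  · rw [el_odd]
    have h1 : gam Z (2 * p + 1) = 1 := by
      unfold gam
      rw [if_neg (by omega)]
    rw [h1]
    split_ifs <;> simp

/-- The set of the terms of the sequence. -/
def XX (Z : ℕ → Finset ℤ) (a : ℕ → ℤ) : Set ℤ :=
  {v | ∃ (τ : ℕ) (z : ℤ) (F : Finset ℕ), z ∈ Z τ ∧ F.Nonempty ∧ v = val a (el τ z F)}

theorem el_top (τ : ℕ) (z : ℤ) (F : Finset ℕ) (hF : F.Nonempty) (q : ℕ)
    (hq : 2 * Nat.pair τ (F.max' hF) + 1 < q) : el τ z F q = 0 := by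
  rcases Nat.even_or_odd' q with ⟨p, rfl | rfl⟩
  · rw [el_even, if_neg]
    have := Nat.left_le_pair τ (F.max' hF)
    omega
  · rw [el_odd, if_neg]
    rintro ⟨j, hj, hp⟩
    have h1 : j ≤ F.max' hF := Finset.le_max' F j hj
    have h2 : Nat.pair τ j ≤ Nat.pair τ (F.max' hF) := by
      rcases h1.lt_or_eq with h | h
      · exact (Nat.pair_lt_pair_right τ h).le
      · rw [h]
    omega

/-- The general form: sums of at most `n` terms whose indices have pairwise different values of a given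
function `ρ` with `m` values. -/
theorem inf_gen (hFU : S_FU) (hZ : S_ZZZ) : ∀ n : ℕ, 1 ≤ n → ∃ x : ℕ → ℤ, StrictMono x ∧
    (∀ s : Finset ℕ, s.card = n + 1 → ∃ r ⊆ s, r.Nonempty ∧ (∑ i ∈ r, x i) ∉ Set.range x) ∧
    ∀ (t m : ℕ) (c : ℤ → Fin t) (ρ : ℕ → Fin m), ∃ u : ℕ → ℕ, StrictMono u ∧ ∃ k : Fin t,
      ∀ s : Finset ℕ, s.Nonempty → s.card ≤ n → (∀ l ∈ s, ∀ l' ∈ s, ρ l = ρ l' → l = l') →
        (∑ l ∈ s, x (u l)) ∈ Set.range x ∧ c (∑ l ∈ s, x (u l)) = k := by
  classical
  intro n hn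
  choose Z hZ1 hZ2 using fun τ : ℕ => hZ (Nat.unpair τ).2 n (Nat.unpair τ).1 hn
  obtain ⟨a, ha, hs⟩ := seq_exists (fun q => (n + 2 : ℤ) * gam Z q)
    (fun q => by have := gam_nonneg Z q; positivity)
  -- comparison of digits
  have key : ∀ u : ℕ →₀ ℤ, (∀ q, |u q| ≤ (n + 2 : ℤ) * gam Z q) → val a u = 0 → u = 0 :=
    fun u hu h => val_zero a _ ha hs u hu h
  have keyp : ∀ u : ℕ →₀ ℤ, (∀ q, |u q| ≤ (n + 2 : ℤ) * gam Z q) → ∀ q₀, 0 < u q₀ →
      (∀ q, q₀ < q → u q = 0) → 0 < val a u :=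
    fun u hu q₀ h0 h1 => val_pos a _ ha hs u hu q₀ h0 h1
  have hXpos : ∀ v ∈ XX Z a, 0 < v := by
    rintro v ⟨τ, z, F, hz, hF, rfl⟩
    refine keyp _ ?_ (2 * Nat.pair τ (F.max' hF) + 1) ?_ ?_
    · intro q
      have h1 := el_le Z τ z hz F q
      have h2 := gam_nonneg Z q
      nlinarith
    · rw [el_odd, if_pos ⟨_, Finset.max'_mem F hF, rfl⟩]
      omega
    · intro q hq
      exact el_top τ z F hF q hq
  -- monotonicity
  have hmono : ∀ (τ : ℕ) (z z' : ℤ) (F F' : Finset ℕ), z ∈ Z τ → z' ∈ Z τ → F.Nonempty →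
      F'.Nonempty → (∀ x ∈ F, ∀ y ∈ F', x < y) → val a (el τ z F) < val a (el τ z' F') := by
    intro τ z z' F F' hz hz' hF hF' hlt
    have h0 : 0 < val a (el τ z' F' - el τ z F) := by
      refine keyp _ ?_ (2 * Nat.pair τ (F'.max' hF') + 1) ?_ ?_
      · intro q
        rw [Finsupp.sub_apply]
        have h1 := el_le Z τ z hz F q
        have h1' := el_le Z τ z' hz' F' q
        have h2 := gam_nonneg Z q
        have h3 := abs_sub (el τ z' F' q) (el τ z F q)
        nlinarith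
      · rw [Finsupp.sub_apply, el_odd, el_odd, if_pos ⟨_, Finset.max'_mem F' hF', rfl⟩, if_neg]
        · omega
        · rintro ⟨j, hj, hp⟩
          have h1 := (Nat.pair_eq_pair.1 hp).2
          have h2 := hlt j hj _ (Finset.max'_mem F' hF')
          omega
      · intro q hq
        rw [Finsupp.sub_apply, el_top τ z' F' hF' q hq, el_top τ z F hF q, sub_zero]
        refine lt_of_le_of_lt ?_ hq
        have h2 := hlt _ (Finset.max'_mem F hF) _ (Finset.max'_mem F' hF')
        have := Nat.pair_lt_pair_right τ h2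
        omega
    rw [map_sub] at h0
    omega
  -- the set is infinite
  have hinf : (setOf fun k : ℕ => (k : ℤ) ∈ XX Z a).Infinite := by
    have hne : (Z (Nat.pair 1 1)).Nonempty := by
      have h1 := hZ2 (Nat.pair 1 1)
      have hτ : ∃ τ : ℕ, τ = Nat.pair 1 1 := ⟨_, rfl⟩
      obtain ⟨τ, hτ⟩ := hτ
      rw [← hτ] at h1 ⊢
      have htu : (Nat.unpair τ).1 = 1 := by rw [hτ, Nat.unpair_pair]
      have hmu : (Nat.unpair τ).2 = 1 := by rw [hτ, Nat.unpair_pair]
      rw [htu, hmu] at h1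
      obtain ⟨x, k, hx⟩ := h1 (fun _ => 0)
      exact ⟨_, (hx {0} (Finset.singleton_nonempty _) (by simpa using hn)).1⟩
    obtain ⟨z, hz⟩ := hne
    have hm : StrictMono fun j : ℕ => val a (el (Nat.pair 1 1) z {j}) := by
      intro i j hij
      refine hmono _ _ _ _ _ hz hz (Finset.singleton_nonempty _) (Finset.singleton_nonempty _) ?_
      intro x hx y hy
      rw [Finset.mem_singleton] at hx hy
      rw [hx, hy]
      exact hij
    have hmem : ∀ j, val a (el (Nat.pair 1 1) z {j}) ∈ XX Z a := fun j =>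
      ⟨_, z, {j}, hz, Finset.singleton_nonempty _, rfl⟩
    refine Set.infinite_of_injective_forall_mem
      (f := fun j : ℕ => (val a (el (Nat.pair 1 1) z {j})).toNat) ?_ ?_
    · intro i j hij
      have h1 := hXpos _ (hmem i)
      have h2 := hXpos _ (hmem j)
      have h3 : (val a (el (Nat.pair 1 1) z {i})).toNat =
          (val a (el (Nat.pair 1 1) z {j})).toNat := hij
      exact hm.injective (show val a (el (Nat.pair 1 1) z {i}) =
        val a (el (Nat.pair 1 1) z {j}) by omega)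
    · intro j
      show (((val a (el (Nat.pair 1 1) z {j})).toNat : ℕ) : ℤ) ∈ XX Z a
      rw [Int.toNat_of_nonneg (hXpos _ (hmem j)).le]
      exact hmem j
  let x : ℕ → ℤ := fun k => (Nat.nth (fun k : ℕ => (k : ℤ) ∈ XX Z a) k : ℤ)
  have hx : StrictMono x := by
    intro i j hij
    exact Int.ofNat_lt.2 (Nat.nth_strictMono hinf hij)
  have hr : Set.range x = XX Z a := by
    ext v
    constructor
    · rintro ⟨k, rfl⟩
      exact Nat.nth_mem_of_infinite hinf k
    · intro hv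
      have h0 := hXpos v hv
      have h1 : v.toNat ∈ Set.range (Nat.nth (fun k : ℕ => (k : ℤ) ∈ XX Z a)) := by
        rw [Nat.range_nth_of_infinite hinf]
        show ((v.toNat : ℕ) : ℤ) ∈ XX Z a
        rw [Int.toNat_of_nonneg h0.le]
        exact hv
      obtain ⟨k, hk⟩ := h1
      refine ⟨k, ?_⟩
      show ((Nat.nth (fun k : ℕ => (k : ℤ) ∈ XX Z a) k : ℕ) : ℤ) = v
      rw [hk, Int.toNat_of_nonneg h0.le]
  refine ⟨x, hx, ?_, ?_⟩
  · -- no configuration
    intro s hs
    by_contra hcon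
    push Not at hcon
    have hcon' : ∀ r ⊆ s, r.Nonempty → ∑ i ∈ r, x i ∈ XX Z a := by
      intro r hr1 hr2
      rw [← hr]
      exact hcon r hr1 hr2
    let g : Fin (n + 1) ↪o ℕ := s.orderEmbOfFin hs
    have hg : ∀ i, g i ∈ s := fun i => Finset.orderEmbOfFin_mem s hs i
    have hsum : ∀ S : Finset (Fin (n + 1)), S.Nonempty → ∑ i ∈ S, x (g i) ∈ XX Z a := by
      intro S hS
      have h1 : ∑ i ∈ S, x (g i) = ∑ k ∈ S.map g.toEmbedding, x k := by
        rw [Finset.sum_map]
        rfl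
      rw [h1]
      refine hcon' _ ?_ (by simpa using hS)
      intro k hk
      rw [Finset.mem_map] at hk
      obtain ⟨i, _, rfl⟩ := hk
      exact hg i
    have h1 : ∀ i, x (g i) ∈ XX Z a := by
      intro i
      have := hsum {i} (Finset.singleton_nonempty i)
      rwa [Finset.sum_singleton] at this
    choose τ z F hz hF hv using h1
    have h2 : ∀ S : Finset (Fin (n + 1)), S.Nonempty → ∃ (τ' : ℕ) (z' : ℤ) (F' : Finset ℕ),
        z' ∈ Z τ' ∧ ∑ i ∈ S, el (τ i) (z i) (F i) = el τ' z' F' := by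
      intro S hS
      obtain ⟨τ', z', F', hz', hF', hv'⟩ := hsum S hS
      refine ⟨τ', z', F', hz', ?_⟩
      rw [← sub_eq_zero]
      refine key _ ?_ ?_
      · intro q
        rw [Finsupp.sub_apply, Finsupp.finset_sum_apply]
        have h3 : |∑ i ∈ S, el (τ i) (z i) (F i) q| ≤ (n + 1 : ℤ) * gam Z q := by
          refine (Finset.abs_sum_le_sum_abs _ _).trans ?_
          refine (Finset.sum_le_card_nsmul S _ (gam Z q) fun i _ => el_le Z _ _ (hz i) _ q).trans ?_
          have h4 : S.card ≤ n + 1 := by simpa using Finset.card_le_univ S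
          have h5 : (S.card : ℤ) ≤ n + 1 := by exact_mod_cast h4
          rw [nsmul_eq_mul]
          exact mul_le_mul_of_nonneg_right h5 (gam_nonneg Z q)
        have h4 := el_le Z τ' z' hz' F' q
        have h5 := abs_sub (∑ i ∈ S, el (τ i) (z i) (F i) q) (el τ' z' F' q)
        linarith
      · rw [map_sub, map_sum, ← hv', sub_eq_zero]
        exact Finset.sum_congr rfl fun i _ => (hv i).symm
    choose τ' z' F' hz' he' using h2
    have h3 : ∀ (S : Finset (Fin (n + 1))) (hS : S.Nonempty), ∀ i ∈ S, τ' S hS = τ i := by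
      intro S hS i hi
      obtain ⟨j, hj⟩ := hF i
      have h4 := congrArg (fun u : ℕ →₀ ℤ => u (2 * Nat.pair (τ i) j + 1)) (he' S hS)
      simp only [Finsupp.finset_sum_apply] at h4
      have h5 : 0 < ∑ k ∈ S, el (τ k) (z k) (F k) (2 * Nat.pair (τ i) j + 1) := by
        refine Finset.sum_pos' (fun k _ => ?_) ⟨i, hi, ?_⟩
        · rw [el_odd]
          split_ifs <;> omega
        · rw [el_odd, if_pos ⟨j, hj, rfl⟩]
          omega
      rw [h4, el_odd] at h5
      split_ifs at h5 with h6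
      · obtain ⟨j', _, hp⟩ := h6
        exact (Nat.pair_eq_pair.1 hp).1
      · omega
    have h4 : ∀ i k, τ i = τ k := by
      intro i k
      rw [← h3 {i, k} ⟨i, by simp⟩ i (by simp), ← h3 {i, k} ⟨i, by simp⟩ k (by simp)]
    refine hZ1 (τ 0) z fun S hS => ?_
    have h5 := congrArg (fun u : ℕ →₀ ℤ => u (2 * τ 0)) (he' S hS)
    simp only [Finsupp.finset_sum_apply, el_even] at h5
    obtain ⟨i, hi⟩ := hS
    have h6 : τ' S ⟨i, hi⟩ = τ 0 := by
      rw [h3 S ⟨i, hi⟩ i hi]
      exact h4 i 0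
    rw [if_pos h6.symm] at h5
    have h7 : ∑ k ∈ S, (if τ 0 = τ k then z k else 0) = ∑ k ∈ S, z k :=
      Finset.sum_congr rfl fun k _ => if_pos (h4 0 k)
    rw [h7] at h5
    rw [h5]
    have h8 := hz' S ⟨i, hi⟩
    rw [h6] at h8
    exact h8
  · -- colourings
    intro t m c r
    have htZ := hZ2 (Nat.pair t m)
    have hτ : ∃ τ : ℕ, τ = Nat.pair t m := ⟨_, rfl⟩
    obtain ⟨τ, hτ⟩ := hτ
    rw [← hτ] at htZ
    have htu : (Nat.unpair τ).1 = t := by rw [hτ, Nat.unpair_pair]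
    have hmu : (Nat.unpair τ).2 = m := by rw [hτ, Nat.unpair_pair]
    rw [htu, hmu] at htZ
    obtain ⟨F, P, hF1, hF2, hF3⟩ := hFU (Z τ → Fin t) (fun G z => c (val a (el τ z.1 G)))
    let d : ℤ → Fin t := fun z => if h : z ∈ Z τ then P ⟨z, h⟩ else c 0
    obtain ⟨y, k, hy⟩ := htZ d
    have hy1 : ∀ l, y (r l) ∈ Z τ := by
      intro l
      have := (hy {r l} (Finset.singleton_nonempty _) (by simpa using hn)).1
      rwa [Finset.sum_singleton] at this
    have hmem : ∀ l, val a (el τ (y (r l)) (F l)) ∈ Set.range x := by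
      intro l
      rw [hr]
      exact ⟨τ, _, _, hy1 l, hF1 l, rfl⟩
    choose u hu using hmem
    refine ⟨u, ?_, k, ?_⟩
    · intro i j hij
      rw [← hx.lt_iff_lt, hu, hu]
      exact hmono τ _ _ _ _ (hy1 i) (hy1 j) (hF1 i) (hF1 j) (hF2 i j hij)
    · intro s hs1 hs2 hs3
      have h1 : ∑ l ∈ s, x (u l) = val a (el τ (∑ l ∈ s, y (r l)) (s.biUnion F)) := by
        rw [← el_add τ s (fun l => y (r l)) F, map_sum]
        · exact Finset.sum_congr rfl fun l _ => hu l
        · intro i _ j _ hij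
          rw [Finset.disjoint_left]
          intro p hp hp'
          rcases lt_or_gt_of_ne hij with h | h
          · exact absurd (hF2 i j h p hp p hp') (lt_irrefl _)
          · exact absurd (hF2 j i h p hp' p hp) (lt_irrefl _)
      have hinj : Set.InjOn r (s : Set ℕ) := by
        intro l hl l' hl' h
        exact hs3 l hl l' hl' h
      have h2 : ∑ l ∈ s, y (r l) = ∑ i ∈ s.image r, y i := by
        rw [Finset.sum_image hinj]
      have h3 := hy (s.image r) (hs1.image r) (Finset.card_image_le.trans hs2)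
      rw [← h2] at h3
      have h4 : (s.biUnion F).Nonempty := by
        obtain ⟨l, hl⟩ := hs1
        obtain ⟨p, hp⟩ := hF1 l
        exact ⟨p, Finset.mem_biUnion.2 ⟨l, hl, hp⟩⟩
      rw [h1]
      constructor
      · rw [hr]
        exact ⟨τ, _, _, h3.1, h4, rfl⟩
      · have h5 := congrFun (hF3 s hs1) ⟨_, h3.1⟩
        have h6 : d (∑ l ∈ s, y (r l)) = P ⟨_, h3.1⟩ := dif_pos h3.1
        rw [← h3.2, h6, ← h5]

theorem s_INF (hFU : S_FU) (hZ : S_ZZZ) : S_INF := by
  intro n hn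
  obtain ⟨x, h1, h2, h3⟩ := inf_gen hFU hZ n hn
  refine ⟨x, h1, h2, fun t m hm c => ?_⟩
  obtain ⟨u, h4, k, h5⟩ := h3 t m c fun l => ⟨l % m, Nat.mod_lt l hm⟩
  exact ⟨u, h4, k, fun s hs1 hs2 hs3 => h5 s hs1 hs2 fun l hl l' hl' h =>
    hs3 l hl l' hl' (Fin.mk.inj_iff.1 h)⟩

end Pool.Agent.L7h68.SF
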