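import Mathlib

set_option autoImplicit false

/-!
# Colourings of the integers modulo `N` against the doubling map

`kk N a` is the number of the leading equal binary digits of `a / N`; `c3` is a colouring with three
colours in which `a` and `2 a` have different colours (`a`, `2 a` not zero modulo `N`), and `c2` is a
colouring with two colours in which `a`, `2 a`, `4 a` do not have the same colour.
-/

namespace Pool.Agent.L7h68.SF.Per

/-- The distance from `a` to the nearest of `0` and `N`. -/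
def mm (N a : ℕ) : ℕ := min a (N - a)

/-- The length of the first run of equal binary digits of `a / N`. -/
def kk (N a : ℕ) : ℕ := Nat.log 2 ((N - 1) / mm N a)

theorem kk_double {N a b : ℕ} (h : mm N b = 2 * mm N a) : kk N b = kk N a - 1 := by
  unfold kk
  rw [h, mul_comm 2, ← Nat.div_div_eq_div_mul, Nat.log_div_base]

theorem kk_far {N a : ℕ} (h0 : 0 < a) (h1 : a < N) (h : 4 * mm N a < N) :
    2 ≤ kk N a ∧ kk N (2 * a % N) = kk N a - 1 ∧ (2 * a < N ↔ 2 * (2 * a % N) < N) := by
  have hm : 0 < mm N a := by unfold mm; omega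
  have hk : 2 ≤ kk N a := by
    unfold kk
    apply Nat.le_log_of_pow_le (by norm_num)
    rw [Nat.le_div_iff_mul_le hm]
    omega
  rcases lt_or_ge (2 * a) N with h2 | h2
  · have hb : 2 * a % N = 2 * a := Nat.mod_eq_of_lt h2
    rw [hb]
    have e : mm N (2 * a) = 2 * mm N a := by
      unfold mm at h ⊢
      omega
    refine ⟨hk, kk_double e, ?_⟩
    unfold mm at h
    omega
  · have hb : 2 * a % N = 2 * a - N := by
      rw [Nat.mod_eq_sub_mod h2, Nat.mod_eq_of_lt (by omega)]
    rw [hb]
    have e : mm N (2 * a - N) = 2 * mm N a := by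
      unfold mm at h ⊢
      omega
    refine ⟨hk, kk_double e, ?_⟩
    unfold mm at h
    omega

theorem kk_near {N a : ℕ} (h0 : 0 < a) (h1 : a < N) (h2 : 2 * a ≠ N) (h : N ≤ 4 * mm N a) :
    kk N a = 1 ∧ (2 * a < N → N ≤ 2 * (2 * a % N)) ∧ (N < 2 * a → 2 * (2 * a % N) ≤ N) := by
  have hm : 0 < mm N a := by unfold mm; omega
  have hm2 : 2 * mm N a < N := by unfold mm; omega
  refine ⟨?_, fun h3 => ?_, fun h3 => ?_⟩
  · unfold kk
    apply le_antisymm
    · apply Nat.lt_succ_iff.1
      apply Nat.log_lt_of_lt_pow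
      · apply Nat.pos_iff_ne_zero.1
        apply Nat.div_pos _ hm
        omega
      · rw [Nat.div_lt_iff_lt_mul hm]
        omega
    · apply Nat.le_log_of_pow_le (by norm_num)
      rw [Nat.le_div_iff_mul_le hm]
      omega
  · rw [Nat.mod_eq_of_lt h3]
    unfold mm at h
    omega
  · rw [Nat.mod_eq_sub_mod h3.le, Nat.mod_eq_of_lt (by omega)]
    unfold mm at h
    omega

theorem kk_half {N b : ℕ} (h0 : 0 < b) (h : 2 * b = N) : kk N b = 0 := by
  unfold kk
  have e : mm N b = b := by unfold mm; omega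
  rw [e]
  apply Nat.log_of_lt
  rw [Nat.div_lt_iff_lt_mul h0]
  omega

/-- The colouring with three colours. -/
def c3 (N a : ℕ) : Fin 3 := if kk N a % 2 = 0 then 2 else if 2 * a < N then 0 else 1

/-- The colouring with two colours. -/
def c2 (N a : ℕ) : Fin 2 := if (kk N a + (if 2 * a < N then 0 else 1)) % 2 = 0 then 0 else 1

theorem c3_ne {N a : ℕ} (h0 : 0 < a) (h1 : a < N) (h2 : 2 * a % N ≠ 0) :
    c3 N a ≠ c3 N (2 * a % N) := by
  have h3 : 2 * a ≠ N := by
    rintro rfl
    exact h2 (Nat.mod_self _)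
  rcases lt_or_ge (4 * mm N a) N with h | h
  · obtain ⟨e1, e2, e3⟩ := kk_far h0 h1 h
    unfold c3
    rw [e2]
    rcases Nat.even_or_odd' (kk N a) with ⟨q, hq | hq⟩
    · have f1 : kk N a % 2 = 0 := by omega
      have f2 : ¬ (kk N a - 1) % 2 = 0 := by omega
      rw [if_pos f1, if_neg f2]
      split_ifs <;> decide
    · have f1 : ¬ kk N a % 2 = 0 := by omega
      have f2 : (kk N a - 1) % 2 = 0 := by omega
      rw [if_neg f1, if_pos f2]
      split_ifs <;> decide
  · obtain ⟨e1, e2, e3⟩ := kk_near h0 h1 h3 h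
    unfold c3
    have f1 : ¬ kk N a % 2 = 0 := by omega
    rw [if_neg f1]
    rcases lt_or_ge (2 * a) N with h4 | h4
    · have f2 : ¬ 2 * (2 * a % N) < N := not_lt.2 (e2 h4)
      rw [if_pos h4, if_neg f2]
      split_ifs <;> decide
    · have h5 := e3 (by omega)
      rw [if_neg (not_lt.2 h4)]
      rcases h5.lt_or_eq with h6 | h6
      · rw [if_pos h6]
        split_ifs <;> decide
      · rw [kk_half (Nat.pos_of_ne_zero h2) h6, if_pos (by norm_num)]
        decide

theorem c2_ne {N a : ℕ} (h0 : 0 < a) (h1 : a < N) (h2 : 2 * a % N ≠ 0)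
    (h3 : 2 * (2 * a % N) % N ≠ 0) (h4 : c2 N a = c2 N (2 * a % N))
    (h5 : c2 N (2 * a % N) = c2 N (2 * (2 * a % N) % N)) : False := by
  have key : ∀ a : ℕ, 0 < a → a < N → 4 * mm N a < N → c2 N a ≠ c2 N (2 * a % N) := by
    intro a h0 h1 h
    obtain ⟨e1, e2, e3⟩ := kk_far h0 h1 h
    unfold c2
    rw [e2]
    by_cases g : 2 * a < N
    · rw [if_pos g, if_pos (e3.1 g)]
      rcases Nat.even_or_odd' (kk N a) with ⟨q, hq | hq⟩
      · rw [if_pos (by omega), if_neg (by omega)]
        decide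
      · rw [if_neg (by omega), if_pos (by omega)]
        decide
    · rw [if_neg g, if_neg (fun h => g (e3.2 h))]
      rcases Nat.even_or_odd' (kk N a) with ⟨q, hq | hq⟩
      · rw [if_neg (by omega), if_pos (by omega)]
        decide
      · rw [if_pos (by omega), if_neg (by omega)]
        decide
  have h6 : 2 * a ≠ N := by
    rintro rfl
    exact h2 (Nat.mod_self _)
  have h7 : 2 * (2 * a % N) ≠ N := by
    intro e
    apply h3
    rw [e, Nat.mod_self]
  have hb1 : 2 * a % N < N := Nat.mod_lt _ (by omega)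
  have hb0 : 0 < 2 * a % N := Nat.pos_of_ne_zero h2
  rcases lt_or_ge (4 * mm N a) N with h | h
  · exact key a h0 h1 h h4
  rcases lt_or_ge (4 * mm N (2 * a % N)) N with h' | h'
  · exact key _ hb0 hb1 h' h5
  obtain ⟨e1, e2, e3⟩ := kk_near h0 h1 h6 h
  obtain ⟨f1, -, -⟩ := kk_near hb0 hb1 h7 h'
  unfold c2 at h4
  rw [e1, f1] at h4
  rcases lt_or_ge (2 * a) N with g | g
  · rw [if_pos g, if_neg (not_lt.2 (e2 g))] at h4
    revert h4
    decide
  · have g2 := e3 (by omega)
    have g3 : 2 * (2 * a % N) < N := by omega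
    rw [if_neg (not_lt.2 g), if_pos g3] at h4
    revert h4
    decide

end Pool.Agent.L7h68.SF.Per
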