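import Mathlib

set_option autoImplicit false

/-!
# Project SF: sequences free of (n+1)-term subsum configurations, Ramsey for sums of at most n terms out of
any m consecutive terms (MP_abb0cc_co)

GOAL (FIN). For every `n ≥ 2` there is a strictly increasing sequence of integers such that no `n + 1` of its
terms have all nonempty subsums in the sequence, and for all `t`, `m ≥ 1` and all colourings with `t` colours
there is an infinite subsequence all of whose sums of at most `n` terms with indices pairwise incongruent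
modulo `m` (for instance: out of `m` consecutive terms) lie in the sequence and have the same colour. The problem file lists
the case `m = n` (consecutive sums) as open for `n > 2`.

PLAN. (1) Sparse Folkman theorem by the partite construction (Nesetril, Rödl): finite sets of integers (ZZZ).
(2) Infinite sequences: finite unions theorem (FU) and digits (INF).
Every part is a `def S_XXX : Prop`; a proof is a theorem `s_XXX (hypotheses) : S_XXX` in the file
`Pool/Agent/<folder>/SF/Xxx.lean`, namespace of your own (for instance `Pool.Agent.L7h23.SF`), which imports this file.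
-/

namespace Pool.Agent.L7h68.SF

/-- The indicator function. -/
def ind {N : ℕ} (A : Finset (Fin N)) : Fin N → ℤ := fun j => if j ∈ A then 1 else 0

/-- No `n + 1` elements (equal ones allowed) have all nonempty subsums in `Y`. -/
def CubeFree {V : Type} [AddCommGroup V] (n : ℕ) (Y : Set V) : Prop :=
  ∀ x : Fin (n + 1) → V, ¬ ∀ S : Finset (Fin (n + 1)), S.Nonempty → ∑ i ∈ S, x i ∈ Y

/-- Partite systems: a finite set `Y` in a finitely generated free abelian group, with a type (a nonempty
subset of `Fin N`) for each element, given by an additive map. -/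
structure Sys (N : ℕ) where
  V : Type
  [grp : AddCommGroup V]
  [free : Module.Free ℤ V]
  [fin : Module.Finite ℤ V]
  Y : Set V
  finite : Y.Finite
  ty : V →+ (Fin N → ℤ)
  typed : ∀ y ∈ Y, ∃ A : Finset (Fin N), A.Nonempty ∧ ty y = ind A

attribute [instance] Sys.grp Sys.free Sys.fin

/-- FU (100 lines, no hypotheses). The finite unions theorem (Hindman).

Proof. Mathlib has Hindman's theorem for semigroups (`Mathlib.Combinatorics.Hindman`, `exists_FS_of_finite_cover` for `ℕ+`). Colour
`x ∈ ℕ+` by the colour of its set of binary digits (`Nat.bitIndices` or `Finset.equivBitIndices`): there is a sequence `a i` of positive integers with all finite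
sums of one colour. Choose sums `b 0, b 1, …` of disjoint finite sets of terms, later and later, such that `b (i+1)` is divisible by
`2^r > b i`: among `2^r` later terms there is a nonempty interval with sum divisible by `2^r` (pigeonhole for the partial sums). `F i` = digits of `b i`;
the digits of a sum of some `b i` are the union. (Alternatively: an idempotent ultrafilter on `Finset ℕ` with `∪` that contains all `{F | ∀ a ∈ F, r < a}`.) -/
def S_FU : Prop :=
  ∀ (κ : Type) [Finite κ] (c : Finset ℕ → κ), ∃ (F : ℕ → Finset ℕ) (k : κ), (∀ i, (F i).Nonempty) ∧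
    (∀ i j, i < j → ∀ a ∈ F i, ∀ b ∈ F j, a < b) ∧
    ∀ I : Finset ℕ, I.Nonempty → c (I.biUnion F) = k

/-- FUF (60 lines), hypothesis `S_FU`. The finite form.

Proof. Otherwise for each `N` there is a bad colouring `c N` of the subsets of `Fin N`. Let `U` be a nonprincipal ultrafilter on `ℕ` (`Filter.hyperfilter ℕ`),
and colour the finite set `F ⊆ ℕ` by the value which `c N {j | j.1 ∈ F}` has for `U`-almost all `N`. Apply FU; for `U`-almost all `N` the sets `F i`, `i < m`, give
a contradiction (finitely many conditions; `N` larger than all elements). -/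
def S_FUF : Prop :=
  ∀ m t : ℕ, ∃ N : ℕ, ∀ c : Finset (Fin N) → Fin t, ∃ (A : Fin m → Finset (Fin N)) (k : Fin t),
    (∀ i, (A i).Nonempty) ∧ (∀ i j, i ≠ j → Disjoint (A i) (A j)) ∧
    ∀ S : Finset (Fin m), S.Nonempty → c (S.biUnion A) = k

/-- STEP (150 lines, no hypotheses). One step of the partite construction.

Proof. We may assume `A` nonempty (otherwise no `y ∈ P.Y` has type `A`, and `P' = P`, `e = id`); let `a ∈ A`. Let `α = {y ∈ P.Y | P.ty y = ind A}` (a finite
type) and let `ι` be as in Hales-Jewett (`Combinatorics.Line.exists_mono_in_high_dimension α (Fin t)`). Put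
`V' = (ι → P.V) × (Combinatorics.Line α ι → Fin N → ℤ) × (Fin N → ℤ)`, `ty' = ` the third component. For a line `L` let `e_L : P.V →+ V'`,
`e_L v = (fun h => if L.idxFun h = some w then (P.ty v a) • w else v, Pi.single L (P.ty v - (P.ty v a) • ind A), P.ty v)`, and let `Y'` be the union of the
`e_L '' P.Y`. For `y ∈ P.Y` of type `A` is `e_L y = (L y, 0, ind A)`; so for a colouring `c` of `V'` colour the words `w : ι → α` by
`c (w, 0, ind A)`; a monochromatic line `L` gives `e = e_L`.
CubeFree: let all nonempty subsums of `x i`, `i : Fin (n + 1)`, be in `Y'`, `∑ i ∈ S, x i = e_(L S) (y S)`, `P.ty (y S) = ind (B S)`. Then `ind (B S)` (third component) is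
the sum of the `ind (B {i})`, `i ∈ S`, so the `B {i}` are disjoint and nonempty; the second component of `e_L y`, `y` of type `B`, is `Pi.single L (ind B - ind B a • ind A)`,
which is `0` only if `B = A`. As `n + 1 ≥ 2` there is `i₀` with `B {i₀} ≠ A`; let `L = L {i₀}`. Each `x i` is in the range of `e_L`: if `B {i} ≠ A` then
the second components of `x i₀`, `x i`, `x i₀ + x i` give `L {i} = L`. If `B {i} = A` then `i ≠ i₀` and the second component of `x i₀ + x i` is that
of `x i₀`, so `L {i₀, i} = L` and `x i = (x i₀ + x i) - x i₀ = e_L (..)`. So `x i = e_L (v i)` and `e_L (∑ i ∈ S, v i) ∈ Y'`. It is enough that `e_L v ∈ Y'`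
implies `v ∈ P.Y`: let `e_L v = e_L' y`, `y` of type `B`; if `B ≠ A` then `L' = L`, and `v = y` at a moving coordinate of `L`; if
`B = A` then at a moving coordinate of `L` is `v =` the coordinate of `e_L' y`, which is in `P.Y` as `P.ty y a = 1`. -/
def S_STEP : Prop :=
  ∀ (N t n : ℕ), 1 ≤ n → ∀ (P : Sys N) (A : Finset (Fin N)), CubeFree n P.Y →
    ∃ P' : Sys N, CubeFree n P'.Y ∧ ∀ c : P'.V → Fin t, ∃ e : P.V →+ P'.V,
      (∀ y ∈ P.Y, e y ∈ P'.Y) ∧ (∀ v, P'.ty (e v) = P.ty v) ∧
      ∀ y ∈ P.Y, ∀ y' ∈ P.Y, P.ty y = ind A → P.ty y' = ind A → c (e y) = c (e y')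

/-- BASE (80 lines, no hypotheses). The first system.

Proof. `V = ((Fin m → Finset (Fin N)) → Fin m → ℤ) × (Fin N → ℤ)`, `ty` the second component, and `Y` the set of the `(Pi.single A (ind S), ind (S.biUnion A))`
for `A : Fin m → Finset (Fin N)` with nonempty and pairwise disjoint values, `S` nonempty with at most `n` elements; `x i = (Pi.single A (ind {i}), ind (A i))`. CubeFree: let `x i`, `i : Fin (n + 1)`,
be given by `A i`, `S i`; from `x i + x j ∈ Y` for `i ≠ j` follows `A i = A j` and that `S i`, `S j` are disjoint; the sum of all `x i` is in `Y`, so the union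
of the `n + 1` disjoint nonempty sets `S i` has at most `n` elements. -/
def S_BASE : Prop :=
  ∀ N m n : ℕ, ∃ P : Sys N, CubeFree n P.Y ∧ ∀ A : Fin m → Finset (Fin N), (∀ i, (A i).Nonempty) →
    (∀ i j, i ≠ j → Disjoint (A i) (A j)) → ∃ x : Fin m → P.V,
      ∀ S : Finset (Fin m), S.Nonempty → S.card ≤ n →
        ∑ i ∈ S, x i ∈ P.Y ∧ P.ty (∑ i ∈ S, x i) = ind (S.biUnion A)

/-- ITER (60 lines), hypotheses `S_FUF`, `S_STEP`, `S_BASE`. The sparse Folkman theorem in groups.

Proof. Take `N` from FUF, `P₀` from BASE. By induction on the finite set (or list) `l` of types there is `P` with `CubeFree n P.Y` such that for each colouring `c` of `P.V`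
there is `e : P₀.V →+ P.V` with `e '' P₀.Y ⊆ P.Y`, compatible with `ty`, such that for `A ∈ l` all `e y`, `y ∈ P₀.Y` of type `A`, have the same colour (STEP for
`P`, `A`; compose the maps). For `l` = all types colour each `A` by the colour of `e y`, `y ∈ P₀.Y` of type `A` (if there is one), apply FUF and BASE. -/
def S_ITER : Prop :=
  ∀ m n t : ℕ, 1 ≤ n → ∃ (V : Type) (_ : AddCommGroup V) (_ : Module.Free ℤ V)
    (_ : Module.Finite ℤ V) (Y : Set V), Y.Finite ∧ CubeFree n Y ∧ ∀ c : V → Fin t,
      ∃ (x : Fin m → V) (k : Fin t), ∀ S : Finset (Fin m), S.Nonempty → S.card ≤ n →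
        ∑ i ∈ S, x i ∈ Y ∧ c (∑ i ∈ S, x i) = k

/-- ZZZ (80 lines), hypothesis `S_ITER`. The sparse Folkman theorem in the integers.

Proof. Let `V`, `Y` be as in ITER. Choose a homomorphism `φ : V →+ ℤ` which is not `0` at the finitely many nonzero elements of `V` of the form `∑ i ∈ S, y i - z`, `y i, z ∈ Y`,
`S : Finset (Fin (n + 1))`: in coordinates (`Module.Free.chooseBasis`) `φ v = ∑ i, v i * B ^ i`, where the integer `B` is not a root of any of the
finitely many nonzero polynomials `∑ v i X ^ i`. `Z = φ '' Y`. If all nonempty subsums of `x i` are in `Z`, `x i = φ (y i)`, then `∑ i ∈ S, y i ∈ Y`. Colourings: `c ∘ φ`. -/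
def S_ZZZ : Prop :=
  ∀ m n t : ℕ, 1 ≤ n → ∃ Z : Finset ℤ, CubeFree n (Z : Set ℤ) ∧ ∀ c : ℤ → Fin t,
    ∃ (x : Fin m → ℤ) (k : Fin t), ∀ S : Finset (Fin m), S.Nonempty → S.card ≤ n →
      ∑ i ∈ S, x i ∈ Z ∧ c (∑ i ∈ S, x i) = k

/-- INF (helper68), hypotheses `S_FU`, `S_ZZZ`. -/
def S_INF : Prop :=
  ∀ n : ℕ, 1 ≤ n → ∃ x : ℕ → ℤ, StrictMono x ∧
    (∀ s : Finset ℕ, s.card = n + 1 → ∃ r ⊆ s, r.Nonempty ∧ (∑ i ∈ r, x i) ∉ Set.range x) ∧
    ∀ t m : ℕ, 1 ≤ m → ∀ c : ℤ → Fin t, ∃ u : ℕ → ℕ, StrictMono u ∧ ∃ k : Fin t,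
      ∀ s : Finset ℕ, s.Nonempty → s.card ≤ n → (∀ l ∈ s, ∀ l' ∈ s, l % m = l' % m → l = l') →
        (∑ l ∈ s, x (u l)) ∈ Set.range x ∧ c (∑ l ∈ s, x (u l)) = k

end Pool.Agent.L7h68.SF
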