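import Pool.Agent.L7h68.SF.Stm

set_option autoImplicit false

/-!
# Project SF, part ZZZ: generic homomorphisms to the integers
-/

namespace Pool.Agent.L7h68.SF

open Finset Polynomial

theorem gen_hom (V : Type) [AddCommGroup V] [Module.Free ℤ V] [Module.Finite ℤ V] (W : Set V)
    (hW : W.Finite) (h0 : (0 : V) ∉ W) : ∃ φ : V →+ ℤ, ∀ w ∈ W, φ w ≠ 0 := by
  classical
  let b := Module.Free.chooseBasis ℤ V
  let e := Fintype.equivFin (Module.Free.ChooseBasisIndex ℤ V)
  let P : V →ₗ[ℤ] ℤ[X] := b.constr ℤ (fun i => (X : ℤ[X]) ^ (e i : ℕ))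
  have hP : ∀ v, P v = 0 → v = 0 := by
    intro v hv
    refine b.ext_elem fun i => ?_
    have h1 : (P v).coeff (e i : ℕ) = b.repr v i := by
      have h2 : P v = ∑ j, b.equivFun v j • (X : ℤ[X]) ^ (e j : ℕ) := b.constr_apply_fintype ℤ _ v
      rw [h2, Polynomial.finset_sum_coeff, Finset.sum_eq_single i]
      · rw [Polynomial.coeff_smul, Polynomial.coeff_X_pow, if_pos rfl]
        simp
      · intro j _ hj
        rw [Polynomial.coeff_smul, Polynomial.coeff_X_pow, if_neg, smul_zero]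
        intro h
        exact hj (e.injective (Fin.ext h)).symm
      · intro h
        exact absurd (Finset.mem_univ i) h
    rw [← h1, hv]
    simp
  have hbad : (⋃ w ∈ W, {B : ℤ | (P w).eval B = 0}).Finite := by
    refine hW.biUnion fun w hw => ?_
    have hne : P w ≠ 0 := fun h => h0 (by rw [← hP w h]; exact hw)
    refine ((P w).roots.toFinset.finite_toSet).subset ?_
    intro B hB
    simp only [Finset.mem_coe, Multiset.mem_toFinset]
    exact (Polynomial.mem_roots hne).2 hB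
  obtain ⟨B, hB⟩ := hbad.infinite_compl.nonempty
  refine ⟨(Polynomial.evalRingHom B).toAddMonoidHom.comp P.toAddMonoidHom, fun w hw h => hB ?_⟩
  exact Set.mem_biUnion hw h

theorem s_ZZZ (hI : S_ITER) : S_ZZZ := by
  classical
  intro m n t hn
  obtain ⟨V, _, _, _, Y, hY, hfree, hcol⟩ := hI m n t hn
  haveI : Finite Y := hY
  let g : (Fin (n + 1) → Y) × Finset (Fin (n + 1)) × Y → V := fun p =>
    ∑ i ∈ p.2.1, (p.1 i : V) - p.2.2
  obtain ⟨φ, hφ⟩ := gen_hom V (Set.range g \ {0}) ((Set.finite_range g).diff) (by simp)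
  refine ⟨hY.toFinset.image φ, ?_, ?_⟩
  · intro x hx
    have h1 : ∀ i, ∃ y ∈ Y, φ y = x i := by
      intro i
      have h2 := hx {i} (Finset.singleton_nonempty i)
      rw [Finset.sum_singleton] at h2
      simpa using h2
    choose y hy1 hy2 using h1
    refine hfree y fun S hS => ?_
    have h2 := hx S hS
    simp only [Finset.coe_image, Set.Finite.coe_toFinset, Set.mem_image] at h2
    obtain ⟨z, hz1, hz2⟩ := h2
    by_cases h3 : ∑ i ∈ S, y i - z = 0
    · rw [sub_eq_zero.1 h3]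
      exact hz1
    · exfalso
      refine hφ (∑ i ∈ S, y i - z) ⟨⟨(fun i => ⟨y i, hy1 i⟩, S, ⟨z, hz1⟩), rfl⟩, h3⟩ ?_
      rw [map_sub, map_sum, hz2, sub_eq_zero]
      exact Finset.sum_congr rfl fun i _ => hy2 i
  · intro c
    obtain ⟨x, k, hx⟩ := hcol fun v => c (φ v)
    refine ⟨fun i => φ (x i), k, fun S hS1 hS2 => ?_⟩
    have h1 := hx S hS1 hS2
    have h2 : ∑ i ∈ S, φ (x i) = φ (∑ i ∈ S, x i) := (map_sum φ _ _).symm
    rw [h2]
    refine ⟨?_, h1.2⟩
    rw [Finset.mem_image]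
    exact ⟨_, hY.mem_toFinset.2 h1.1, rfl⟩

end Pool.Agent.L7h68.SF
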